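import Mathlib

/-!
# Defining minors of Kazhdan-Lusztig ideals need not be a Groebner basis

Conventions: the problem's indices `1, …, n` are `0, …, n - 1` here (`Fin n`).
-/

open MvPolynomial
open scoped MonomialOrder

namespace Pool.Agent.Results.MP_fe322e_ag.NotGroebner

/-! ## Term orders and Groebner bases -/

/-- A term order (Mathlib's `MonomialOrder`) is *graded* if it refines total degree. -/
def Graded {σ : Type*} (m : MonomialOrder σ) : Prop :=
  ∀ a b : σ →₀ ℕ, a.degree < b.degree → a ≺[m] b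

/-- A term order on `k[x_ij : i, j]` is *diagonal* if for all rows `r 0 < ⋯ < r (s-1)` and columns
`c 0 < ⋯ < c (s-1)` the leading term of `det (x_{r a, c b})` is the product of the diagonal
entries. -/
def Diagonal (k : Type*) [Field k] {n : ℕ} (m : MonomialOrder (Fin n × Fin n)) : Prop :=
  ∀ (s : ℕ) (r c : Fin s → Fin n), StrictMono r → StrictMono c →
    m.leadingTerm (Matrix.det (Matrix.of fun a b : Fin s =>
      (X (r a, c b) : MvPolynomial (Fin n × Fin n) k))) = ∏ a, X (r a, c a)

/-- Exponents of monomials in the variables `x_{ι i}`, embedded into the ordered monoid `m.syn`. -/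
noncomputable def embedHom {σ τ : Type*} (m : MonomialOrder σ) (ι : τ ↪ σ) :
    (τ →₀ ℕ) →+ m.syn :=
  (m.toSyn : (σ →₀ ℕ) →+ m.syn).comp (Finsupp.mapDomain.addMonoidHom ι)

/-- `embedHom` is injective. -/
theorem embedHom_injective {σ τ : Type*} (m : MonomialOrder σ) (ι : τ ↪ σ) :
    Function.Injective (embedHom m ι) := fun _ _ h =>
  Finsupp.mapDomain_injective ι.injective (m.toSyn.injective h)

/-- `embedHom` as an isomorphism onto its range. -/
noncomputable def embedEquiv {σ τ : Type*} (m : MonomialOrder σ) (ι : τ ↪ σ) :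
    (τ →₀ ℕ) ≃+ AddMonoidHom.mrange (embedHom m ι) :=
  AddEquiv.ofBijective (embedHom m ι).mrangeRestrict
    ⟨fun _ _ h => embedHom_injective m ι (Subtype.ext_iff.mp h),
      AddMonoidHom.mrangeRestrict_surjective _⟩

theorem embedEquiv_monotone {σ τ : Type*} (m : MonomialOrder σ) (ι : τ ↪ σ) :
    Monotone (embedEquiv m ι) := fun a b h => by
  obtain ⟨c, rfl⟩ := exists_add_of_le h
  show m.toSyn (Finsupp.mapDomain ι a) ≤ m.toSyn (Finsupp.mapDomain ι (a + c))
  exact m.toSyn_monotone (by rw [Finsupp.mapDomain_add]; exact le_self_add)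

/-- The restriction of a term order on `k[x_j : j ∈ σ]` to the polynomial subring in the
variables `x_{ι i}`, for an injection `ι : τ → σ`: monomials are compared in `k[x_j : j ∈ σ]`. -/
noncomputable def restrictOrder {σ τ : Type*} (m : MonomialOrder σ) (ι : τ ↪ σ) :
    MonomialOrder τ where
  syn := AddMonoidHom.mrange (embedHom m ι)
  toSyn := embedEquiv m ι
  toSyn_monotone := embedEquiv_monotone m ι

/-- The restricted order compares exponents after embedding them. -/
theorem restrictOrder_lt_iff {σ τ : Type*} (m : MonomialOrder σ) (ι : τ ↪ σ) (a b : τ →₀ ℕ) :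
    a ≺[restrictOrder m ι] b ↔ Finsupp.mapDomain ι a ≺[m] Finsupp.mapDomain ι b := Iff.rfl

/-- `G` is a Groebner basis of the ideal `I` for the term order `m`: `G ⊆ I`, and the leading
terms of the elements of `G` generate the same ideal as the leading terms of all elements
of `I`. -/
def IsGroebnerBasis {σ k : Type*} [Field k] (m : MonomialOrder σ) (G : Set (MvPolynomial σ k))
    (I : Ideal (MvPolynomial σ k)) : Prop :=
  G ⊆ I ∧ Ideal.span (m.leadingTerm '' G) = Ideal.span (m.leadingTerm '' (I : Set _))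

/-! ## Kazhdan-Lusztig ideals -/

/-- Positions `(i, j)` of the indeterminates of `Z^{(u)}`: `i > u(j)` and `j < u⁻¹(i)`. The
polynomial ring `k[x^{(u)}]` is `MvPolynomial (Var u) k`. -/
abbrev Var {n : ℕ} (u : Equiv.Perm (Fin n)) : Type :=
  {p : Fin n × Fin n // u p.2 < p.1 ∧ p.2 < u.symm p.1}

/-- The inclusion of the indeterminates of `Z^{(u)}` into all `x_ij`. -/
def incl {n : ℕ} (u : Equiv.Perm (Fin n)) : Var u ↪ Fin n × Fin n := Function.Embedding.subtype _

/-- The matrix `Z^{(u)}`. -/
noncomputable def Z (k : Type*) [Field k] {n : ℕ} (u : Equiv.Perm (Fin n)) :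
    Matrix (Fin n) (Fin n) (MvPolynomial (Var u) k) :=
  Matrix.of fun i j =>
    if i = u j then 1 else if h : u j < i ∧ j < u.symm i then X ⟨(i, j), h⟩ else 0

/-- `r^v_{pq} = #{j ≤ q : v(j) ≥ p}`. -/
def swRank {n : ℕ} (v : Equiv.Perm (Fin n)) (p q : Fin n) : ℕ :=
  (Finset.univ.filter fun j : Fin n => j ≤ q ∧ p ≤ v j).card

/-- The defining determinants of `I_{u,v}`: for all `p, q`, all minors of size `r^v_{pq} + 1` of
the submatrix of `Z^{(u)}` in rows `≥ p` and columns `≤ q`. -/
def definingDets (k : Type*) [Field k] {n : ℕ} (u v : Equiv.Perm (Fin n)) :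
    Set (MvPolynomial (Var u) k) :=
  {f | ∃ (p q : Fin n) (r c : Fin (swRank v p q + 1) → Fin n), StrictMono r ∧ StrictMono c ∧
    (∀ a, p ≤ r a) ∧ (∀ b, c b ≤ q) ∧ f = ((Z k u).submatrix r c).det}

/-- The Kazhdan-Lusztig ideal `I_{u,v}`. -/
noncomputable def KLIdeal (k : Type*) [Field k] {n : ℕ} (u v : Equiv.Perm (Fin n)) :
    Ideal (MvPolynomial (Var u) k) :=
  Ideal.span (definingDets k u v)

/-- Bruhat order on `S_n`: `u ≤ v` if `v` is obtained from `u` by successively exchanging the
values at two positions `i < j` with `w(i) < w(j)` (each such step raises the length). -/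
def BruhatLE {n : ℕ} : Equiv.Perm (Fin n) → Equiv.Perm (Fin n) → Prop :=
  Relation.ReflTransGen fun w w' => ∃ i j, i < j ∧ w i < w j ∧ w' = w * Equiv.swap i j

/-! ## The example -/

/-- The permutation `145326`. -/
def u₀ : Equiv.Perm (Fin 6) where
  toFun := ![0, 3, 4, 2, 1, 5]
  invFun := ![0, 4, 3, 1, 2, 5]
  left_inv := by decide
  right_inv := by decide

/-- The permutation `653412`. -/
def v₀ : Equiv.Perm (Fin 6) where
  toFun := ![5, 4, 2, 3, 0, 1]
  invFun := ![4, 5, 2, 3, 1, 0]
  left_inv := by decide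
  right_inv := by decide

lemma bruhat₀ : BruhatLE u₀ v₀ := by
  have e : v₀ = (((((u₀ * Equiv.swap 0 1) * Equiv.swap 0 5) * Equiv.swap 1 2) * Equiv.swap 2 3) *
      Equiv.swap 3 4) * Equiv.swap 3 5 := by decide
  rw [e]
  refine Relation.ReflTransGen.tail (Relation.ReflTransGen.tail (Relation.ReflTransGen.tail
    (Relation.ReflTransGen.tail (Relation.ReflTransGen.tail (Relation.ReflTransGen.tail
    Relation.ReflTransGen.refl ⟨0, 1, ?_, ?_, rfl⟩) ⟨0, 5, ?_, ?_, rfl⟩) ⟨1, 2, ?_, ?_, rfl⟩)
    ⟨2, 3, ?_, ?_, rfl⟩) ⟨3, 4, ?_, ?_, rfl⟩) ⟨3, 5, ?_, ?_, rfl⟩ <;> decide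

/-- The rank criterion for `u ≤ v`, as a cross-check. -/
lemma rank_criterion : ∀ p q : Fin 6, swRank u₀ p q ≤ swRank v₀ p q := by decide

lemma gap {s n : ℕ} (f : Fin (s + 1) → Fin n) (hf : StrictMono f) :
    ∀ (d : ℕ) (i j : Fin (s + 1)), (j : ℕ) = i + d → (f i : ℕ) + d ≤ f j := by
  intro d
  induction d with
  | zero =>
    intro i j h
    have : i = j := Fin.ext (by omega)
    subst this; simp
  | succ d ih =>
    intro i j h
    have hj := j.2
    let j' : Fin (s + 1) := ⟨i + d, by omega⟩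
    have h1 := ih i j' rfl
    have h2 : f j' < f j := hf (Fin.lt_def.mpr (by show (i : ℕ) + d < j; omega))
    have h3 : (f j' : ℕ) < f j := h2
    omega

lemma rows_eq {s : ℕ} (f : Fin (s + 1) → Fin 6) (hf : StrictMono f) (p : Fin 6)
    (hp : ∀ a, p ≤ f a) : s + p ≤ 5 ∧ (s + p = 5 → ∀ a, (f a : ℕ) = p + a) := by
  have h0 : (p : ℕ) ≤ f 0 := hp 0
  have h1 := gap f hf s 0 (Fin.last s) (by simp)
  have h2 := (f (Fin.last s)).2
  refine ⟨by omega, fun hs a => ?_⟩
  have h3 := gap f hf a 0 a (by simp)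
  have ha := a.2
  have h4 := gap f hf (s - a) a (Fin.last s) (by simp; omega)
  omega

lemma cols_eq {s : ℕ} (f : Fin (s + 1) → Fin 6) (hf : StrictMono f) (q : Fin 6)
    (hq : ∀ a, f a ≤ q) : s ≤ q ∧ (s = q → ∀ a, (f a : ℕ) = a) := by
  have h0 : (f (Fin.last s) : ℕ) ≤ q := hq _
  have h1 := gap f hf s 0 (Fin.last s) (by simp)
  refine ⟨by omega, fun hs a => ?_⟩
  have h3 := gap f hf a 0 a (by simp)
  have ha := a.2
  have h4 := gap f hf (s - a) a (Fin.last s) (by simp; omega)
  omega

lemma ranks : ∀ p q : Fin 6, swRank v₀ p q + p ≤ 5 → swRank v₀ p q ≤ q →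
    (p = 1 ∧ q = 4) ∨ (p = 3 ∧ q = 2) := by decide

lemma rank14 : swRank v₀ 1 4 = 4 := by decide

lemma rank32 : swRank v₀ 3 2 = 2 := by decide

lemma det5 {R : Type*} [CommRing R] (a b c d e p q w z t : R) :
    Matrix.det !![a, 0, 0, 0, 1; b, 0, 0, 1, 0; c, 1, 0, 0, 0; d, e, 1, 0, 0; p, q, w, z, t] =
      - (c * e * w) + (a * t + b * z + c * q + d * w - p) := by
  simp [Matrix.det_succ_row_zero, Fin.sum_univ_succ, Fin.succAbove]
  ring

section Core

variable (k : Type*) [Field k]

/-- indeterminates of the example -/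
def v21 : Var u₀ := ⟨(1, 0), by decide⟩
def v31 : Var u₀ := ⟨(2, 0), by decide⟩
def v41 : Var u₀ := ⟨(3, 0), by decide⟩
def v51 : Var u₀ := ⟨(4, 0), by decide⟩
def v61 : Var u₀ := ⟨(5, 0), by decide⟩
def v52 : Var u₀ := ⟨(4, 1), by decide⟩
def v62 : Var u₀ := ⟨(5, 1), by decide⟩
def v63 : Var u₀ := ⟨(5, 2), by decide⟩
def v64 : Var u₀ := ⟨(5, 3), by decide⟩
def v65 : Var u₀ := ⟨(5, 4), by decide⟩

lemma det_big {s : ℕ} (hs : s = 4) (r c : Fin (s + 1) → Fin 6) (hr : ∀ a, (r a : ℕ) = 1 + a)
    (hc : ∀ a, (c a : ℕ) = a) :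
    ((Z k u₀).submatrix r c).det = - (X v41 * X v52 * X v63) +
      (X v21 * X v65 + X v31 * X v64 + X v41 * X v62 + X v51 * X v63 - X v61) := by
  subst hs
  have hr' : r = ![1, 2, 3, 4, 5] := by
    funext a; apply Fin.ext; rw [hr]; fin_cases a <;> rfl
  have hc' : c = ![0, 1, 2, 3, 4] := by
    funext a; apply Fin.ext; rw [hc]; fin_cases a <;> rfl
  subst hr' hc'
  rw [← det5]
  congr 1
  ext i j : 2
  fin_cases i <;> fin_cases j <;> rfl

lemma det_small {s : ℕ} (hs : s = 2) (r c : Fin (s + 1) → Fin 6) (hr : ∀ a, (r a : ℕ) = 3 + a)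
    (hc : ∀ a, (c a : ℕ) = a) :
    ((Z k u₀).submatrix r c).det = X v41 * X v52 * X v63 -
      (X v41 * X v62 + X v51 * X v63 - X v61) := by
  subst hs
  have hr' : r = ![3, 4, 5] := by
    funext a; apply Fin.ext; rw [hr]; fin_cases a <;> rfl
  have hc' : c = ![0, 1, 2] := by
    funext a; apply Fin.ext; rw [hc]; fin_cases a <;> rfl
  subst hr' hc'
  have e : (Z k u₀).submatrix ![3, 4, 5] ![0, 1, 2] =
      !![X v41, 1, 0; X v51, X v52, 1; X v61, X v62, X v63] := by
    ext i j : 2
    fin_cases i <;> fin_cases j <;> rfl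
  rw [e, Matrix.det_fin_three]
  simp
  ring

/-- The two defining determinants are the only ones. -/
lemma mem_definingDets {g : MvPolynomial (Var u₀) k} (hg : g ∈ definingDets k u₀ v₀) :
    g = - (X v41 * X v52 * X v63) +
      (X v21 * X v65 + X v31 * X v64 + X v41 * X v62 + X v51 * X v63 - X v61) ∨
    g = X v41 * X v52 * X v63 - (X v41 * X v62 + X v51 * X v63 - X v61) := by
  obtain ⟨p, q, r, c, hr, hc, hpr, hcq, rfl⟩ := hg
  obtain ⟨h1, h2⟩ := rows_eq r hr p hpr
  obtain ⟨h3, h4⟩ := cols_eq c hc q hcq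
  rcases ranks p q h1 h3 with ⟨rfl, rfl⟩ | ⟨rfl, rfl⟩
  · left
    exact det_big k rank14 r c (h2 (by rw [rank14]; rfl)) (h4 (by rw [rank14]; rfl))
  · right
    exact det_small k rank32 r c (h2 (by rw [rank32]; rfl)) (h4 (by rw [rank32]; rfl))

lemma big_mem : (- (X v41 * X v52 * X v63) +
      (X v21 * X v65 + X v31 * X v64 + X v41 * X v62 + X v51 * X v63 - X v61) :
      MvPolynomial (Var u₀) k) ∈ definingDets k u₀ v₀ := by
  have h : ∀ a : Fin (swRank v₀ 1 4 + 1), (a : ℕ) < 5 := fun a => by
    have h1 := a.2; have h2 := rank14; omega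
  refine ⟨1, 4, fun a => ⟨1 + a, by have := h a; omega⟩, fun a => ⟨a, by have := h a; omega⟩,
    ?_, ?_, ?_, ?_, ?_⟩
  · intro a b hab; exact Fin.mk_lt_mk.mpr (by have : (a : ℕ) < b := hab; omega)
  · intro a b hab; exact Fin.mk_lt_mk.mpr hab
  · intro a; exact Fin.le_def.mpr (by show 1 ≤ 1 + (a : ℕ); omega)
  · intro a; exact Fin.le_def.mpr (by have := h a; show (a : ℕ) ≤ 4; omega)
  · exact (det_big k rank14 _ _ (fun a => rfl) (fun a => rfl)).symm

lemma small_mem : (X v41 * X v52 * X v63 - (X v41 * X v62 + X v51 * X v63 - X v61) :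
      MvPolynomial (Var u₀) k) ∈ definingDets k u₀ v₀ := by
  have h : ∀ a : Fin (swRank v₀ 3 2 + 1), (a : ℕ) < 3 := fun a => by
    have h1 := a.2; have h2 := rank32; omega
  refine ⟨3, 2, fun a => ⟨3 + a, by have := h a; omega⟩, fun a => ⟨a, by have := h a; omega⟩,
    ?_, ?_, ?_, ?_, ?_⟩
  · intro a b hab; exact Fin.mk_lt_mk.mpr (by have : (a : ℕ) < b := hab; omega)
  · intro a b hab; exact Fin.mk_lt_mk.mpr hab
  · intro a; exact Fin.le_def.mpr (by show 3 ≤ 3 + (a : ℕ); omega)
  · intro a; exact Fin.le_def.mpr (by have := h a; show (a : ℕ) ≤ 2; omega)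
  · exact (det_small k rank32 _ _ (fun a => rfl) (fun a => rfl)).symm

lemma leadingTerm_of {σ : Type*} {m : MonomialOrder σ} (hm : Graded m) (d : σ →₀ ℕ) {a : k}
    (ha : a ≠ 0) (h : MvPolynomial σ k) (hh : h.totalDegree < d.degree) :
    m.leadingTerm (monomial d a + h) = monomial d a := by
  classical
  have h1 : m.degree (monomial d a) = d := by rw [MonomialOrder.degree_monomial, if_neg ha]
  have h2 : m.degree h ≺[m] m.degree (monomial d a) := by
    rw [h1]
    apply hm
    refine lt_of_le_of_lt ?_ hh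
    by_cases h0 : h = 0
    · simp [h0]
    · have := le_totalDegree (m.degree_mem_support h0)
      exact this
  rw [MonomialOrder.leadingTerm, MonomialOrder.leadingCoeff_add_of_lt h2,
    MonomialOrder.degree_add_of_lt h2, h1, MonomialOrder.leadingCoeff_monomial]

/-- The core statement: no graded term order on `k[x^{(u)}]` works. -/
theorem core (m : MonomialOrder (Var u₀)) (hm : Graded m) :
    ¬ IsGroebnerBasis m (definingDets k u₀ v₀) (KLIdeal k u₀ v₀) := by
  classical
  rintro ⟨-, hspan⟩
  -- the common leading monomial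
  have hmon : ∀ a : k, (monomial (Finsupp.single v41 1 + Finsupp.single v52 1 +
      Finsupp.single v63 1) a : MvPolynomial (Var u₀) k) = C a * (X v41 * X v52 * X v63) := by
    intro a
    simp only [X, monomial_mul, C_mul_monomial, mul_one]
  have hdeg : (Finsupp.single v41 1 + Finsupp.single v52 1 + Finsupp.single v63 1 :
      Var u₀ →₀ ℕ).degree = 3 := by
    simp [map_add]
  have t2 : ∀ i j : Var u₀, (X i * X j : MvPolynomial (Var u₀) k).totalDegree ≤ 2 := by
    intro i j
    refine (totalDegree_mul _ _).trans ?_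
    simp [totalDegree_X]
  have t1 : ∀ i : Var u₀, (X i : MvPolynomial (Var u₀) k).totalDegree ≤ 2 := by
    intro i; simp [totalDegree_X]
  have tadd : ∀ f g : MvPolynomial (Var u₀) k, f.totalDegree ≤ 2 → g.totalDegree ≤ 2 →
      (f + g).totalDegree ≤ 2 := fun f g hf hg => (totalDegree_add f g).trans (max_le hf hg)
  have tsub : ∀ f g : MvPolynomial (Var u₀) k, f.totalDegree ≤ 2 → g.totalDegree ≤ 2 →
      (f - g).totalDegree ≤ 2 := fun f g hf hg => (totalDegree_sub f g).trans (max_le hf hg)
  have hLT : ∀ g ∈ definingDets k u₀ v₀, ∃ a : k, m.leadingTerm g =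
      C a * (X v41 * X v52 * X v63) := by
    intro g hg
    rcases mem_definingDets k hg with rfl | rfl
    · refine ⟨-1, ?_⟩
      rw [← hmon]
      have e : (- (X v41 * X v52 * X v63) : MvPolynomial (Var u₀) k) =
          monomial (Finsupp.single v41 1 + Finsupp.single v52 1 + Finsupp.single v63 1)
            (-1 : k) := by
        rw [hmon]; simp
      rw [e]
      refine leadingTerm_of k hm _ (by simp) _ ?_
      rw [hdeg]
      refine lt_of_le_of_lt (b := 2) ?_ (by norm_num)
      exact tsub _ _ (tadd _ _ (tadd _ _ (tadd _ _ (t2 _ _) (t2 _ _)) (t2 _ _)) (t2 _ _)) (t1 _)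
    · refine ⟨1, ?_⟩
      rw [← hmon]
      have e : (X v41 * X v52 * X v63 - (X v41 * X v62 + X v51 * X v63 - X v61) :
          MvPolynomial (Var u₀) k) =
          monomial (Finsupp.single v41 1 + Finsupp.single v52 1 + Finsupp.single v63 1)
            (1 : k) + - (X v41 * X v62 + X v51 * X v63 - X v61) := by
        rw [hmon]; simp [sub_eq_add_neg]
      rw [e]
      refine leadingTerm_of k hm _ (by simp) _ ?_
      rw [hdeg]
      refine lt_of_le_of_lt (b := 2) ?_ (by norm_num)
      rw [totalDegree_neg]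
      exact tsub _ _ (tadd _ _ (t2 _ _) (t2 _ _)) (t1 _)
  -- the sum of the two determinants
  have hf : (X v21 * X v65 + X v31 * X v64 : MvPolynomial (Var u₀) k) ∈ KLIdeal k u₀ v₀ := by
    have e : (X v21 * X v65 + X v31 * X v64 : MvPolynomial (Var u₀) k) =
        (- (X v41 * X v52 * X v63) +
          (X v21 * X v65 + X v31 * X v64 + X v41 * X v62 + X v51 * X v63 - X v61)) +
        (X v41 * X v52 * X v63 - (X v41 * X v62 + X v51 * X v63 - X v61)) := by ring
    rw [e]
    exact Ideal.add_mem _ (Ideal.subset_span (big_mem k)) (Ideal.subset_span (small_mem k))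
  have hfs : m.leadingTerm (X v21 * X v65 + X v31 * X v64 : MvPolynomial (Var u₀) k) ∈
      Ideal.span (m.leadingTerm '' definingDets k u₀ v₀) := by
    rw [hspan]
    exact Ideal.subset_span ⟨_, hf, rfl⟩
  -- evaluation killing `x41`
  let φ : MvPolynomial (Var u₀) k →+* k := eval fun w => if w = v41 then 0 else 1
  have hφ : ∀ t ∈ Ideal.span (m.leadingTerm '' definingDets k u₀ v₀), φ t = 0 := by
    intro t ht
    have hle : Ideal.span (m.leadingTerm '' definingDets k u₀ v₀) ≤ RingHom.ker φ := by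
      rw [Ideal.span_le]
      rintro _ ⟨g, hg, rfl⟩
      obtain ⟨a, ha⟩ := hLT g hg
      rw [SetLike.mem_coe, RingHom.mem_ker, ha]
      simp [φ]
    exact hle ht
  have h0 := hφ _ hfs
  -- contradiction
  set f : MvPolynomial (Var u₀) k := X v21 * X v65 + X v31 * X v64 with hfdef
  have hfm : f = monomial (Finsupp.single v21 1 + Finsupp.single v65 1) 1 +
      monomial (Finsupp.single v31 1 + Finsupp.single v64 1) 1 := by
    rw [hfdef]; simp only [X, monomial_mul, mul_one]
  have hf0 : f ≠ 0 := by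
    intro h
    have := congrArg (eval fun w : Var u₀ => if w = v21 ∨ w = v65 then (1 : k) else 0) h
    rw [hfdef] at this
    simp [show v31 ≠ v21 by decide, show v31 ≠ v65 by decide] at this
  have hsup : m.degree f ∈ f.support := m.degree_mem_support hf0
  have hsup2 : m.degree f = Finsupp.single v21 1 + Finsupp.single v65 1 ∨
      m.degree f = Finsupp.single v31 1 + Finsupp.single v64 1 := by
    rw [mem_support_iff, hfm, coeff_add, coeff_monomial, coeff_monomial, ← hfm] at hsup
    by_contra hcon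
    push Not at hcon
    rw [if_neg (Ne.symm hcon.1), if_neg (Ne.symm hcon.2)] at hsup
    simp at hsup
  have hlc : m.leadingCoeff f ≠ 0 := m.leadingCoeff_ne_zero_iff.mpr hf0
  apply hlc
  rw [MonomialOrder.leadingTerm] at h0
  rcases hsup2 with h | h
  · rw [h] at h0
    simpa [φ, eval_monomial, Finsupp.prod_add_index', Finsupp.prod_single_index,
      show v21 ≠ v41 by decide, show v65 ≠ v41 by decide] using h0
  · rw [h] at h0
    simpa [φ, eval_monomial, Finsupp.prod_add_index', Finsupp.prod_single_index,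
      show v31 ≠ v41 by decide, show v64 ≠ v41 by decide] using h0

lemma graded_restrict {σ τ : Type*} (m : MonomialOrder σ) (hm : Graded m) (ι : τ ↪ σ) :
    Graded (restrictOrder m ι) := by
  intro a b hab
  rw [restrictOrder_lt_iff]
  apply hm
  have key : ∀ c : τ →₀ ℕ, (Finsupp.mapDomain ι c).degree = c.degree := by
    intro c
    induction c using Finsupp.induction_linear with
    | zero => simp
    | add f g hf hg => rw [Finsupp.mapDomain_add, map_add, map_add, hf, hg]
    | single i n => simp [Finsupp.mapDomain_single]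
  rw [key, key]
  exact hab

end Core

/-! ## Graded diagonal term orders exist -/

section Diag

/-- Graded lexicographic order with `x_11 > x_12 > ⋯ > x_1n > x_21 > ⋯ > x_nn`. -/
noncomputable def rowOrder (n : ℕ) : MonomialOrder (Fin n × Fin n) :=
  restrictOrder (MonomialOrder.degLex (σ := Fin n ×ₗ Fin n)) (toLex : _ ≃ _).toEmbedding

lemma degLex_graded {σ : Type*} [LinearOrder σ] [WellFoundedGT σ] :
    Graded (MonomialOrder.degLex (σ := σ)) := by
  intro a b hab
  rw [MonomialOrder.degLex_lt_iff, Finsupp.DegLex.lt_iff]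
  exact Or.inl hab

lemma rowOrder_graded (n : ℕ) : Graded (rowOrder n) := graded_restrict _ degLex_graded _

/-- exponent of the term of the permutation `τ` in a generic minor -/
noncomputable def ex {n s : ℕ} (r c : Fin s → Fin n) (τ : Equiv.Perm (Fin s)) :
    (Fin n × Fin n) →₀ ℕ := ∑ i, Finsupp.single (r i, c (τ i)) 1

lemma ex_lt {n s : ℕ} (r c : Fin s → Fin n) (hr : StrictMono r) (hc : StrictMono c)
    (τ : Equiv.Perm (Fin s)) (hτ : τ ≠ 1) : ex r c τ ≺[rowOrder n] ex r c 1 := by
  classical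
  rw [rowOrder, restrictOrder_lt_iff, MonomialOrder.degLex_lt_iff, Finsupp.DegLex.lt_iff]
  have hmap : ∀ ρ : Equiv.Perm (Fin s), Finsupp.mapDomain (toLex : Fin n × Fin n ≃ _).toEmbedding
      (ex r c ρ) = ∑ i, Finsupp.single (toLex (r i, c (ρ i))) 1 := by
    intro ρ
    rw [ex, Finsupp.mapDomain_finsetSum]
    simp only [Finsupp.mapDomain_single]
    rfl
  rw [hmap, hmap]
  right
  refine ⟨by simp [map_sum], ?_⟩
  -- the first moved index
  have hne : (Finset.univ.filter fun i => τ i ≠ i).Nonempty := by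
    by_contra h
    rw [Finset.not_nonempty_iff_eq_empty, Finset.filter_eq_empty_iff] at h
    apply hτ
    ext i
    have := h (Finset.mem_univ i)
    simpa using congrArg Fin.val (not_not.mp this)
  set i₀ := (Finset.univ.filter fun i => τ i ≠ i).min' hne with hi₀
  have h1 : τ i₀ ≠ i₀ := by
    have := Finset.min'_mem _ hne
    rw [← hi₀] at this
    simpa using this
  have h2 : ∀ i < i₀, τ i = i := by
    intro i hi
    by_contra h
    have := Finset.min'_le (Finset.univ.filter fun i => τ i ≠ i) i (by simpa using h)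
    rw [← hi₀] at this
    exact absurd hi (not_lt.mpr this)
  have h3 : i₀ < τ i₀ := by
    rcases lt_trichotomy (τ i₀) i₀ with h | h | h
    · exact absurd (τ.injective (h2 _ h)) h1
    · exact absurd h h1
    · exact h
  refine ⟨toLex (r i₀, c i₀), ?_, ?_⟩
  · intro j hj
    show (∑ i, Finsupp.single (toLex (r i, c (τ i))) 1 : (Fin n ×ₗ Fin n) →₀ ℕ) j =
      (∑ i, Finsupp.single (toLex (r i, c ((1 : Equiv.Perm (Fin s)) i))) 1 :
        (Fin n ×ₗ Fin n) →₀ ℕ) j
    rw [Finsupp.finsetSum_apply, Finsupp.finsetSum_apply]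
    apply Finset.sum_congr rfl
    intro i _
    rcases lt_trichotomy i i₀ with h | h | h
    · rw [h2 i h]; rfl
    · subst h
      rw [Prod.Lex.lt_iff] at hj
      have hcc : c i₀ < c (τ i₀) := hc h3
      have e1 : toLex (r i₀, c (τ i₀)) ≠ j := by
        rintro rfl
        rcases hj with hj | hj
        · exact absurd hj (lt_irrefl _)
        · exact absurd hj.2 (not_lt.mpr hcc.le)
      have e2 : toLex (r i₀, c ((1 : Equiv.Perm (Fin s)) i₀)) ≠ j := by
        rintro rfl
        rcases hj with hj | hj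
        · exact absurd hj (lt_irrefl _)
        · exact absurd hj.2 (lt_irrefl _)
      rw [Finsupp.single_eq_of_ne e1.symm, Finsupp.single_eq_of_ne e2.symm]
    · have hrr : r i₀ < r i := hr h
      have e : ∀ y, toLex (r i, y) ≠ j := by
        rintro y rfl
        rw [Prod.Lex.lt_iff] at hj
        rcases hj with hj | hj
        · exact absurd hj (not_lt.mpr hrr.le)
        · exact absurd hj.1 (ne_of_gt hrr)
      rw [Finsupp.single_eq_of_ne (e _).symm, Finsupp.single_eq_of_ne (e _).symm]
  · show (∑ i, Finsupp.single (toLex (r i, c (τ i))) 1 : (Fin n ×ₗ Fin n) →₀ ℕ)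
        (toLex (r i₀, c i₀)) <
      (∑ i, Finsupp.single (toLex (r i, c ((1 : Equiv.Perm (Fin s)) i))) 1 :
        (Fin n ×ₗ Fin n) →₀ ℕ) (toLex (r i₀, c i₀))
    rw [Finsupp.finsetSum_apply, Finsupp.finsetSum_apply]
    have z : ∀ i, (Finsupp.single (toLex (r i, c (τ i))) 1 : (Fin n ×ₗ Fin n) →₀ ℕ)
        (toLex (r i₀, c i₀)) = 0 := by
      intro i
      apply Finsupp.single_eq_of_ne
      intro h
      have h' := Prod.ext_iff.mp (toLex.injective h)
      have hi : i = i₀ := hr.injective h'.1.symm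
      subst hi
      exact h1 (hc.injective h'.2.symm)
    rw [Finset.sum_eq_zero fun i _ => z i]
    refine lt_of_lt_of_le Nat.zero_lt_one ?_
    refine le_trans ?_ (Finset.single_le_sum (f := fun i =>
      (Finsupp.single (toLex (r i, c ((1 : Equiv.Perm (Fin s)) i))) 1 : (Fin n ×ₗ Fin n) →₀ ℕ)
        (toLex (r i₀, c i₀))) (fun i _ => Nat.zero_le _) (Finset.mem_univ i₀))
    simp

lemma rowOrder_diagonal (k : Type*) [Field k] (n : ℕ) : Diagonal k (rowOrder n) := by
  classical
  intro s r c hr hc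
  have hprod : ∀ τ : Equiv.Perm (Fin s), (∏ i, X (r i, c (τ i)) :
      MvPolynomial (Fin n × Fin n) k) = monomial (ex r c τ) 1 := by
    intro τ
    rw [ex, monomial_sum_one]
    rfl
  set D := Matrix.det (Matrix.of fun a b : Fin s =>
      (X (r a, c b) : MvPolynomial (Fin n × Fin n) k)) with hD
  have hdet : D = ∑ τ : Equiv.Perm (Fin s), Equiv.Perm.sign τ •
      (monomial (ex r c τ) 1 : MvPolynomial (Fin n × Fin n) k) := by
    rw [hD, ← Matrix.det_transpose, Matrix.det_apply]
    apply Finset.sum_congr rfl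
    intro τ _
    rw [← hprod]
    rfl
  have hcoeff : ∀ d, coeff d D = ∑ τ : Equiv.Perm (Fin s), Equiv.Perm.sign τ •
      (if ex r c τ = d then (1 : k) else 0) := by
    intro d
    rw [hdet, coeff_sum]
    apply Finset.sum_congr rfl
    intro τ _
    rw [Units.smul_def, Units.smul_def, coeff_smul, coeff_monomial]
  have hne : ∀ τ : Equiv.Perm (Fin s), τ ≠ 1 → ex r c τ ≠ ex r c 1 := by
    intro τ hτ h
    have := ex_lt r c hr hc τ hτ
    rw [h] at this
    exact lt_irrefl _ this
  have h1 : coeff (ex r c 1) D = 1 := by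
    rw [hcoeff, Finset.sum_eq_single (1 : Equiv.Perm (Fin s))]
    · simp
    · intro τ _ hτ
      rw [if_neg (hne τ hτ), smul_zero]
    · intro h; exact absurd (Finset.mem_univ _) h
  have h2 : (rowOrder n).degree D = ex r c 1 := by
    apply (rowOrder n).toSyn.injective
    apply le_antisymm
    · rw [MonomialOrder.degree_le_iff]
      intro d hd
      rw [mem_support_iff, hcoeff] at hd
      obtain ⟨τ, -, hτ⟩ := Finset.exists_ne_zero_of_sum_ne_zero hd
      have : ex r c τ = d := by
        by_contra h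
        rw [if_neg h, smul_zero] at hτ
        exact hτ rfl
      rw [← this]
      by_cases h : τ = 1
      · rw [h]
      · exact (ex_lt r c hr hc τ h).le
    · apply MonomialOrder.le_degree
      rw [mem_support_iff, h1]
      exact one_ne_zero
  rw [MonomialOrder.leadingTerm, MonomialOrder.leadingCoeff, h2, h1, ← hprod]
  rfl

end Diag

/-- **Main result.** Let `k` be any field, `u = 145326` and `v = 653412` in `S₆`. Then `u ≤ v` in
Bruhat order, and for *every* graded term order on `k[x_ij : 1 ≤ i, j ≤ 6]` (diagonal or not) the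
defining determinants of `I_{u,v}` are not a Groebner basis of `I_{u,v}` for the restricted order
on `k[x^{(u)}]`. Graded diagonal term orders exist (for every `n`). -/
theorem result (k : Type*) [Field k] :
    (∀ n : ℕ, ∃ m : MonomialOrder.{0, 0} (Fin n × Fin n), Graded m ∧ Diagonal k m) ∧
    ∃ u v : Equiv.Perm (Fin 6), BruhatLE u v ∧
      ∀ m : MonomialOrder (Fin 6 × Fin 6), Graded m →
        ¬ IsGroebnerBasis (restrictOrder m (incl u)) (definingDets k u v) (KLIdeal k u v) :=
  ⟨fun n => ⟨rowOrder n, rowOrder_graded n, rowOrder_diagonal k n⟩,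
    u₀, v₀, bruhat₀, fun m hm => core k _ (graded_restrict m hm _)⟩

end Pool.Agent.Results.MP_fe322e_ag.NotGroebner
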